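import Pool.Agent.H31C.Stubs

/-! Definitions. Slit rectangles: the slit strip cut at height `H`. -/

namespace Pool.Agent.H492T

open Pool.Agent.H988R2.Perc hiding X
open Pool.Agent.H31C Finset MeasureTheory Filter Topology

/-- the crossing from the left bank of the slit to the right side inside the slit rectangle
`0 ≤ u - v ≤ a+b+1`, `|u + v| ≤ H` -/
def CrossH (a b H : ℕ) : Set Conf :=
  {ω | ∃ x y : ℤ × ℤ, x.1 - x.2 = a ∧ 1 ≤ x.1 + x.2 ∧ x.1 + x.2 ≤ H ∧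
    y.1 - y.2 = ((a+b+1 : ℕ) : ℤ) ∧
    Relation.ReflTransGen (fun p r => SlitAdj a (a+b+1) ω p r ∧ |p.1 + p.2| ≤ H ∧ |r.1 + r.2| ≤ H) x y}

/-- an open path of the strip `0 ≤ u - v ≤ L` joins the region `u + v ≤ s` to `u + v ≥ t` -/
def Vert (L : ℕ) (s t : ℤ) : Set Conf :=
  {ω | ∃ x y : ℤ × ℤ, x.1 + x.2 ≤ s ∧ t ≤ y.1 + y.2 ∧
    Relation.ReflTransGen (fun p r => OpenAdj ω p r ∧ 0 ≤ p.1 - p.2 ∧ p.1 - p.2 ≤ L ∧
      0 ≤ r.1 - r.2 ∧ r.1 - r.2 ≤ L) x y}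

end Pool.Agent.H492T
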