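import Pool.Agent.H492T.Defs

namespace Pool.Agent.H492T

open Pool.Agent.H988R2.Perc hiding X
open Pool.Agent.H31C Finset MeasureTheory Filter Topology

/-! ### task TR1 -/

theorem TR1_sub (a b H : ℕ) : CrossH a b H ⊆ Cross a b := by sorry

theorem TR1_diff (a b H : ℕ) (hH : 1 ≤ H) :
    Cross a b \ CrossH a b H ⊆ Vert (a+b+1) 0 H ∪ Vert (a+b+1) (-(H:ℤ)) 0 := by sorry

/-! ### task TR2: exponential decay, uniformly in the width -/

theorem TR2_decay : ∃ δ : ℝ, 0 < δ ∧ δ < 1 ∧ ∀ (L : ℕ) (s : ℤ) (j : ℕ), 1 ≤ L →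
    perc (Vert L s (s + 100 * L * j)) ≤ ENNReal.ofReal ((1 - δ)^j) := by sorry

/-! ### task TR3: assembly -/

theorem TR3_main (hX : S_Exact) : ∃ c C : ℝ, 0 < c ∧ ∀ a b H : ℕ, Odd a → Odd b →
    |perc.real (CrossH a b H) - ∑ k ∈ range (a+1), bw (a+b+1) k| ≤
      C * Real.exp (-(c * H / (a + b + 1))) := by sorry

end Pool.Agent.H492T
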