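import Pool.Agent.H492T.TR2

/-! TR3: crossings of the slit rectangle versus the slit strip. -/

namespace Pool.Agent.H492T

open Pool.Agent.H988R2.Perc hiding X
open Pool.Agent.H31C Finset MeasureTheory Filter Topology

/-- the two inputs of task TR1 -/
def TR1 : Prop := (∀ a b H : ℕ, CrossH a b H ⊆ Cross a b) ∧
  (∀ a b H : ℕ, 1 ≤ H →
    Cross a b \ CrossH a b H ⊆ Vert (a+b+1) 0 H ∪ Vert (a+b+1) (-(H:ℤ)) 0)

theorem vert_anti (L : ℕ) (s : ℤ) {t t' : ℤ} (h : t ≤ t') : Vert L s t' ⊆ Vert L s t := by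
  rintro ω ⟨x, y, hx, hy, hp⟩
  exact ⟨x, y, hx, h.trans hy, hp⟩

theorem vert_real {L : ℕ} (hL : 1 ≤ L) (s : ℤ) (H : ℕ) :
    perc.real (Vert L s (s + H)) ≤ (1 - (1/2 : ℝ)^188)^(H / (100 * L)) := by
  have h1 : s + 100 * (L:ℤ) * ((H / (100 * L) : ℕ) : ℤ) ≤ s + H := by
    have : 100 * L * (H / (100 * L)) ≤ H := Nat.mul_div_le H (100 * L)
    have h2 : (100 : ℤ) * L * ((H / (100 * L) : ℕ) : ℤ) ≤ H := by exact_mod_cast this
    linarith
  have h2 := (measure_mono (μ := perc) (vert_anti L s h1)).trans (TR2_explicit L s (H / (100 * L)) hL)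
  have h0 : (0:ℝ) ≤ (1 - (1/2 : ℝ)^188)^(H / (100 * L)) := by
    apply pow_nonneg
    have : ((1:ℝ)/2)^188 ≤ 1 := pow_le_one₀ (by norm_num) (by norm_num)
    linarith
  exact ENNReal.toReal_le_of_le_ofReal h0 h2

/-- explicit comparison of the slit rectangle with the slit strip -/
theorem TR3_explicit (h : TR1) (a b H : ℕ) :
    perc.real (CrossH a b H) ≤ perc.real (Cross a b) ∧
    perc.real (Cross a b) ≤
      perc.real (CrossH a b H) + 2 * (1 - (1/2 : ℝ)^188)^(H / (100 * (a + b + 1))) := by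
  constructor
  · exact measureReal_mono (h.1 a b H)
  · rcases Nat.eq_zero_or_pos H with h0 | h0
    · subst h0
      have h1 : perc.real (Cross a b) ≤ 1 := measureReal_le_one
      have h2 : 0 ≤ perc.real (CrossH a b 0) := measureReal_nonneg
      simp only [Nat.zero_div, pow_zero]
      linarith
    · have h1 : Cross a b ⊆ CrossH a b H ∪ (Vert (a+b+1) 0 H ∪ Vert (a+b+1) (-(H:ℤ)) 0) := by
        intro ω hω
        by_cases hc : ω ∈ CrossH a b H
        · exact Or.inl hc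
        · exact Or.inr (h.2 a b H h0 ⟨hω, hc⟩)
      have h2 : perc.real (Cross a b) ≤ perc.real (CrossH a b H) +
          (perc.real (Vert (a+b+1) 0 H) + perc.real (Vert (a+b+1) (-(H:ℤ)) 0)) :=
        (measureReal_mono h1).trans ((measureReal_union_le _ _).trans
          (add_le_add_right (measureReal_union_le _ _) _))
      have h3 := vert_real (L := a+b+1) (by omega) 0 H
      have h4 := vert_real (L := a+b+1) (by omega) (-(H:ℤ)) H
      rw [zero_add] at h3
      rw [neg_add_cancel] at h4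
      linarith

theorem TR3_bound (h : TR1) (hX : S_Exact) {a b : ℕ} (ha : Odd a) (hb : Odd b) (H : ℕ) :
    |perc.real (CrossH a b H) - ∑ k ∈ range (a+1), bw (a+b+1) k| ≤
      2 * (1 - (1/2 : ℝ)^188)^(H / (100 * (a + b + 1))) := by
  obtain ⟨h1, h2⟩ := TR3_explicit h a b H
  rw [← hX a b ha hb, abs_le]
  constructor <;> linarith [h1, h2]

theorem exp_bound {ρ : ℝ} (hρ0 : 0 < ρ) (hρ1 : ρ < 1) (H : ℕ) {L : ℕ} (hL : 1 ≤ L) :
    ρ^(H / (100 * L)) ≤ (1 / ρ) * Real.exp (-(-Real.log ρ / 100 * H / L)) := by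
  have hlog : Real.log ρ < 0 := Real.log_neg hρ0 hρ1
  have hLpos : (0:ℝ) < L := by exact_mod_cast hL
  generalize hN : H / (100 * L) = N
  have h1 : (H : ℝ) / (100 * L) - 1 ≤ (N : ℝ) := by
    have := Nat.lt_div_mul_add (a := H) (b := 100 * L) (by omega)
    rw [hN] at this
    have h2 : (H : ℝ) < (N : ℝ) * (100 * L) + 100 * L := by exact_mod_cast this
    rw [sub_le_iff_le_add, div_le_iff₀ (by positivity)]
    linarith
  have h2 : ρ^N = Real.exp ((N : ℝ) * Real.log ρ) := by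
    rw [← Real.rpow_natCast, Real.rpow_def_of_pos hρ0, mul_comm]
  have h3 : (N : ℝ) * Real.log ρ ≤ ((H : ℝ) / (100 * L) - 1) * Real.log ρ :=
    mul_le_mul_of_nonpos_right h1 hlog.le
  have h5 : Real.exp (((H : ℝ) / (100 * L) - 1) * Real.log ρ) =
      (1 / ρ) * Real.exp (-(-Real.log ρ / 100 * H / L)) := by
    have : ((H : ℝ) / (100 * L) - 1) * Real.log ρ =
        -(-Real.log ρ / 100 * H / L) - Real.log ρ := by
      field_simp
    rw [this, Real.exp_sub, Real.exp_log hρ0]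
    ring
  rw [h2, ← h5]
  exact Real.exp_le_exp.mpr h3

theorem TR3_main (h : TR1) (hX : S_Exact) : ∃ c C : ℝ, 0 < c ∧ ∀ a b H : ℕ, Odd a → Odd b →
    |perc.real (CrossH a b H) - ∑ k ∈ range (a+1), bw (a+b+1) k| ≤
      C * Real.exp (-(c * H / (a + b + 1))) := by
  have key : ∀ t : ℝ, 0 < t → t < 1 → (∀ a b H : ℕ, Odd a → Odd b →
      |perc.real (CrossH a b H) - ∑ k ∈ range (a+1), bw (a+b+1) k| ≤
      2 * (1 - t)^(H / (100 * (a + b + 1)))) → ∃ c C : ℝ, 0 < c ∧ ∀ a b H : ℕ, Odd a → Odd b →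
    |perc.real (CrossH a b H) - ∑ k ∈ range (a+1), bw (a+b+1) k| ≤
      C * Real.exp (-(c * H / (a + b + 1))) := by
    intro t t0 t1 ht
    have hρ0 : 0 < 1 - t := by linarith
    have hρ1 : 1 - t < 1 := by linarith
    have hlog : Real.log (1 - t) < 0 := Real.log_neg hρ0 hρ1
    refine ⟨-Real.log (1 - t) / 100, 2 / (1 - t), by linarith, fun a b H ha hb => ?_⟩
    refine (ht a b H ha hb).trans ?_
    have h1 := exp_bound hρ0 hρ1 H (L := a + b + 1) (by omega)
    have e : ((a + b + 1 : ℕ) : ℝ) = a + b + 1 := by push_cast; ring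
    rw [e] at h1
    calc 2 * (1 - t)^(H / (100 * (a + b + 1))) ≤
        2 * ((1 / (1 - t)) * Real.exp (-(-Real.log (1 - t) / 100 * H / (a + b + 1)))) := by
          linarith
      _ = 2 / (1 - t) * Real.exp (-(-Real.log (1 - t) / 100 * H / (a + b + 1))) := by ring
  exact key ((1/2 : ℝ)^188) (by positivity) (pow_lt_one₀ (by norm_num) (by norm_num) (by norm_num))
    (fun a b H ha hb => TR3_bound h hX ha hb H)

end Pool.Agent.H492T
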